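import Pool.Agent.W533.LP.Stm
import Pool.Agent.W533.LP.Stm3

/-!
# LP-T1: first bound for the probability of a long exit
-/

set_option autoImplicit false

namespace Pool.Agent.W925.LP

open MeasureTheory ProbabilityTheory
open Pool.Agent.W533.LP

theorem geo_sub {Ω ι κ : Type} [MeasurableSpace Ω] {μ : Measure Ω} {p : ι → ℝ} {X : ι → Ω → ℕ}
    (h : GeoFam μ p X) (g : κ → ι) (hg : Function.Injective g) :
    GeoFam μ (fun k => p (g k)) (fun k => X (g k)) :=
  ⟨h.prob, fun _ => h.pos _, fun _ => h.meas _, h.indep.precomp hg, fun _ => h.law _⟩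

theorem geo_bd {Ω : Type} [MeasurableSpace Ω] {μ : Measure Ω} {q a : ℝ} {I J : ℕ → Ω → ℕ}
    {W : ℕ → ℕ → Ω → ℕ} (h : Sys0 μ q a I J W) (n : ℕ) :
    GeoFam μ (fun _ : Fin n => a) (fun i : Fin n => I i) :=
  geo_sub h (fun i : Fin n => Sum.inl (i : ℕ)) (fun i j hij => Fin.ext (Sum.inl.inj hij))

/-! ### real inequalities -/

theorem mean_sub (a l : ℝ) (ha : a < 1) (hl : l < 1) :
    mean l - mean a = (l - a) / ((1 - l) * (1 - a)) := by
  have h1 : 1 - a ≠ 0 := by linarith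
  have h2 : 1 - l ≠ 0 := by linarith
  unfold mean
  field_simp
  ring

theorem mean_q (q a : ℝ) (hq : 0 < q) (ha : q < a) : mean (q / a) = q / (a - q) := by
  have h1 : a ≠ 0 := by linarith
  have h2 : a - q ≠ 0 := by linarith
  have h3 : 1 - q / a = (a - q) / a := by field_simp
  unfold mean
  rw [h3]
  field_simp

theorem vari_q (q a : ℝ) (hq : 0 < q) (ha : q < a) : vari (q / a) = q * a / (a - q) ^ 2 := by
  have h1 : a ≠ 0 := by linarith
  have h2 : a - q ≠ 0 := by linarith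
  have h3 : 1 - q / a = (a - q) / a := by field_simp
  unfold vari
  rw [h3]
  field_simp

theorem bracket (q t a l D E M N : ℝ) (ht : t ^ 2 = q) (ht0 : 0 < t) (hq : 0 < q) (hq1 : q < 1)
    (ht1 : t < 1) (ha0 : 0 < a)
    (hal : a ≤ l) (hD : 0 < D) (hE : 0 < E) (hE1 : E ≤ 1) (hlD : l ≤ 1 - D) (haE : q + E ≤ a)
    (hN : 0 ≤ N) :
    M * (mean l - mean a) + N * (mean (q / l) - mean (q / a)) ≤
      (l - a) * (2 / (D ^ 2 * E ^ 2) * (|M - N| + N * |a - t| + N * (l - a))) := by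
  have h1a : 0 < 1 - a := by linarith
  have h1l : 0 < 1 - l := by linarith
  have h2a : 0 < a - q := by linarith
  have h2l : 0 < l - q := by linarith
  rw [mean_sub a l (by linarith) (by linarith), mean_q q l hq (by linarith),
    mean_q q a hq (by linarith)]
  have hP1 : D ^ 2 ≤ (1 - l) * (1 - a) := by nlinarith
  have hP2 : E ^ 2 ≤ (l - q) * (a - q) := by nlinarith
  have hPP : D ^ 2 * E ^ 2 ≤ ((1 - l) * (1 - a)) * ((l - q) * (a - q)) :=
    mul_le_mul hP1 hP2 (by positivity) (by positivity)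
  have hid : M * ((l - a) / ((1 - l) * (1 - a))) + N * (q / (l - q) - q / (a - q)) =
      (l - a) * ((M - N) / ((1 - l) * (1 - a)) +
        N * ((1 - q) * (l * a - q) / (((1 - l) * (1 - a)) * ((l - q) * (a - q))))) := by
    field_simp
    ring
  rw [hid]
  refine mul_le_mul_of_nonneg_left ?_ (by linarith)
  have b1 : (M - N) / ((1 - l) * (1 - a)) ≤ 2 / (D ^ 2 * E ^ 2) * |M - N| := by
    have e1 : (M - N) / ((1 - l) * (1 - a)) ≤ |M - N| / D ^ 2 := by
      have : (M - N) / ((1 - l) * (1 - a)) ≤ |M - N| / ((1 - l) * (1 - a)) := by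
        gcongr
        exact le_abs_self _
      refine this.trans ?_
      gcongr
    have e2 : |M - N| / D ^ 2 ≤ 2 / (D ^ 2 * E ^ 2) * |M - N| := by
      rw [div_mul_eq_mul_div, div_le_div_iff₀ (by positivity) (by positivity)]
      have hE2 : E ^ 2 ≤ 1 := by nlinarith
      have h0 : 0 ≤ |M - N| * D ^ 2 := by positivity
      nlinarith
    exact e1.trans e2
  have b2 : (1 - q) * (l * a - q) / (((1 - l) * (1 - a)) * ((l - q) * (a - q))) ≤
      2 / (D ^ 2 * E ^ 2) * (|a - t| + (l - a)) := by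
    have e0 : |l * a - q| ≤ 2 * |a - t| + (l - a) := by
      have e3 : l * a - q = (a - t) * (a + t) + a * (l - a) := by rw [← ht]; ring
      rw [e3]
      refine (abs_add_le _ _).trans ?_
      rw [abs_mul, abs_mul, abs_of_nonneg (by linarith : 0 ≤ a + t), abs_of_pos ha0,
        abs_of_nonneg (by linarith : 0 ≤ l - a)]
      have h5 : 0 ≤ |a - t| := abs_nonneg _
      nlinarith
    have e1 : (1 - q) * (l * a - q) ≤ 2 * |a - t| + (l - a) := by
      have h6 := le_abs_self (l * a - q)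
      have h7 := abs_nonneg (l * a - q)
      nlinarith
    have h8 : 0 ≤ 2 * |a - t| + (l - a) := by
      have h5 : 0 ≤ |a - t| := abs_nonneg _
      linarith
    have e2 : (1 - q) * (l * a - q) / (((1 - l) * (1 - a)) * ((l - q) * (a - q))) ≤
        (2 * |a - t| + (l - a)) / (D ^ 2 * E ^ 2) := by
      have h9 : (1 - q) * (l * a - q) / (((1 - l) * (1 - a)) * ((l - q) * (a - q))) ≤
          (2 * |a - t| + (l - a)) / (((1 - l) * (1 - a)) * ((l - q) * (a - q))) := by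
        gcongr
      refine h9.trans ?_
      gcongr
    refine e2.trans ?_
    rw [div_mul_eq_mul_div]
    gcongr
    linarith
  have b3 := mul_le_mul_of_nonneg_left b2 hN
  calc _ ≤ 2 / (D ^ 2 * E ^ 2) * |M - N| + N * (2 / (D ^ 2 * E ^ 2) * (|a - t| + (l - a))) :=
        add_le_add b1 b3
    _ = _ := by ring

theorem var1 (a l D : ℝ) (ha0 : 0 < a) (hal : a ≤ l) (hD : 0 < D) (hlD : l ≤ 1 - D) :
    |vari l - vari a| ≤ (l - a) / D ^ 4 := by
  have h1a : 0 < 1 - a := by linarith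
  have h1l : 0 < 1 - l := by linarith
  have hid : vari l - vari a = (l - a) * (1 - a * l) / ((1 - l) ^ 2 * (1 - a) ^ 2) := by
    unfold vari
    field_simp
    ring
  have hal1 : a * l ≤ 1 := by nlinarith
  have hal0 : 0 ≤ a * l := by nlinarith
  rw [hid, abs_of_nonneg (by
    refine div_nonneg (mul_nonneg (by linarith) (by linarith)) (by positivity))]
  have hP : D ^ 4 ≤ (1 - l) ^ 2 * (1 - a) ^ 2 := by
    have e1 : D ^ 2 ≤ (1 - l) ^ 2 := by nlinarith
    have e2 : D ^ 2 ≤ (1 - a) ^ 2 := by nlinarith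
    calc D ^ 4 = D ^ 2 * D ^ 2 := by ring
      _ ≤ _ := mul_le_mul e1 e2 (by positivity) (by positivity)
  have hnum : (l - a) * (1 - a * l) ≤ l - a := by nlinarith
  have h0 : 0 ≤ l - a := by linarith
  calc _ ≤ (l - a) / ((1 - l) ^ 2 * (1 - a) ^ 2) := by gcongr
    _ ≤ _ := by gcongr

theorem var2 (q a l E : ℝ) (hq : 0 < q) (hal : a ≤ l) (hl1 : l < 1) (hE : 0 < E)
    (haE : q + E ≤ a) : |vari (q / l) - vari (q / a)| ≤ (l - a) / E ^ 4 := by
  have h2a : 0 < a - q := by linarith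
  have h2l : 0 < l - q := by linarith
  have hid : vari (q / l) - vari (q / a) =
      -(q * ((l - a) * (a * l - q ^ 2)) / ((l - q) ^ 2 * (a - q) ^ 2)) := by
    rw [vari_q q l hq (by linarith), vari_q q a hq (by linarith)]
    field_simp
    ring
  have ha0 : 0 < a := by linarith
  have hnn : 0 ≤ a * l - q ^ 2 := by nlinarith
  have hle1 : q * (a * l - q ^ 2) ≤ 1 := by
    have e1 : a * l ≤ 1 := by nlinarith
    have e2 : a * l - q ^ 2 ≤ 1 := by nlinarith
    nlinarith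
  have h0 : 0 ≤ l - a := by linarith
  rw [hid, abs_neg, abs_of_nonneg (by positivity)]
  have hP : E ^ 4 ≤ (l - q) ^ 2 * (a - q) ^ 2 := by
    have e1 : E ^ 2 ≤ (l - q) ^ 2 := by nlinarith
    have e2 : E ^ 2 ≤ (a - q) ^ 2 := by nlinarith
    calc E ^ 4 = E ^ 2 * E ^ 2 := by ring
      _ ≤ _ := mul_le_mul e1 e2 (by positivity) (by positivity)
  have hnum : q * ((l - a) * (a * l - q ^ 2)) ≤ l - a := by
    have : q * ((l - a) * (a * l - q ^ 2)) = (l - a) * (q * (a * l - q ^ 2)) := by ring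
    rw [this]
    nlinarith
  calc _ ≤ (l - a) / ((l - q) ^ 2 * (a - q) ^ 2) := by gcongr
    _ ≤ _ := by gcongr

theorem vari_bd (a D : ℝ) (ha0 : 0 < a) (hD : 0 < D) (haD : a ≤ 1 - D) : vari a ≤ 1 / D ^ 2 := by
  have h1a : 0 < 1 - a := by linarith
  unfold vari
  have e1 : D ^ 2 ≤ (1 - a) ^ 2 := by nlinarith
  calc a / (1 - a) ^ 2 ≤ 1 / (1 - a) ^ 2 := by gcongr; linarith
    _ ≤ _ := by gcongr

/-! ### variance of a combination of four variables -/

theorem int_four {Ω : Type} [MeasurableSpace Ω] {μ : Measure Ω} {a b c d : Ω → ℝ}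
    (ha : Integrable a μ) (hb : Integrable b μ) (hc : Integrable c μ) (hd : Integrable d μ) :
    ∫ ω, (a ω + b ω + c ω + d ω) ∂μ = ∫ ω, a ω ∂μ + ∫ ω, b ω ∂μ + ∫ ω, c ω ∂μ + ∫ ω, d ω ∂μ := by
  have e1 := integral_add (f := fun ω => a ω + b ω + c ω) (g := d) ((ha.add hb).add hc) hd
  have e2 := integral_add (f := fun ω => a ω + b ω) (g := c) (ha.add hb) hc
  rw [e1, e2, integral_add ha hb]

theorem var_four {Ω : Type} [MeasurableSpace Ω] {μ : Measure Ω} [IsProbabilityMeasure μ]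
    {X1 X2 X3 X4 : Ω → ℝ} (h1 : MemLp X1 2 μ) (h2 : MemLp X2 2 μ) (h3 : MemLp X3 2 μ)
    (h4 : MemLp X4 2 μ) :
    variance (fun ω => X1 ω - X2 ω - (X3 ω - X4 ω)) μ ≤
      4 * (variance X1 μ + variance X2 μ + variance X3 μ + variance X4 μ) := by
  have i1 := h1.integrable (by norm_num)
  have i2 := h2.integrable (by norm_num)
  have i3 := h3.integrable (by norm_num)
  have i4 := h4.integrable (by norm_num)
  have hZ : MemLp (fun ω => X1 ω - X2 ω - (X3 ω - X4 ω)) 2 μ := (h1.sub h2).sub (h3.sub h4)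
  have hmean : ∫ ω, (X1 ω - X2 ω - (X3 ω - X4 ω)) ∂μ =
      (∫ ω, X1 ω ∂μ - ∫ ω, X2 ω ∂μ) - (∫ ω, X3 ω ∂μ - ∫ ω, X4 ω ∂μ) := by
    have e := integral_sub (f := fun ω => X1 ω - X2 ω) (g := fun ω => X3 ω - X4 ω) (i1.sub i2)
      (i3.sub i4)
    rw [e, integral_sub i1 i2, integral_sub i3 i4]
  rw [variance_eq_integral hZ.aestronglyMeasurable.aemeasurable,
    variance_eq_integral h1.aestronglyMeasurable.aemeasurable,
    variance_eq_integral h2.aestronglyMeasurable.aemeasurable,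
    variance_eq_integral h3.aestronglyMeasurable.aemeasurable,
    variance_eq_integral h4.aestronglyMeasurable.aemeasurable]
  have s : ∀ {X : Ω → ℝ}, MemLp X 2 μ → Integrable (fun ω => (X ω - ∫ ω, X ω ∂μ) ^ 2) μ :=
    fun hX => (hX.sub (memLp_const _)).integrable_sq
  have s1 := s h1
  have s2 := s h2
  have s3 := s h3
  have s4 := s h4
  rw [← int_four s1 s2 s3 s4, ← integral_const_mul]
  refine integral_mono (s hZ) ((((s1.add s2).add s3).add s4).const_mul 4) ?_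
  intro ω
  simp only [Pi.add_apply]
  rw [hmean]
  set x := X1 ω - ∫ ω, X1 ω ∂μ
  set y := X2 ω - ∫ ω, X2 ω ∂μ
  set z := X3 ω - ∫ ω, X3 ω ∂μ
  set w := X4 ω - ∫ ω, X4 ω ∂μ
  have e : X1 ω - X2 ω - (X3 ω - X4 ω) -
      (∫ ω, X1 ω ∂μ - ∫ ω, X2 ω ∂μ - (∫ ω, X3 ω ∂μ - ∫ ω, X4 ω ∂μ)) = x - y - (z - w) := by
    simp only [x, y, z, w]; ring
  rw [e]
  nlinarith [sq_nonneg (x + y), sq_nonneg (x + z), sq_nonneg (x - w), sq_nonneg (y - z),
    sq_nonneg (y + w), sq_nonneg (z + w)]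

/-! ### transfer -/

theorem bump_meas (u : ℕ) : Measurable (fun I : ℕ → ℕ => bump I u 1) := by
  refine measurable_pi_lambda _ fun i => ?_
  unfold bump
  by_cases h : i = u
  · simp only [h, if_true]
    exact (measurable_pi_apply u).add_const 1
  · simp only [h, if_false]
    exact measurable_pi_apply i

theorem transfer (hLaw : ALaw) (hMeas : AMeas) {Ω Ω' : Type} [MeasurableSpace Ω]
    [MeasurableSpace Ω'] (μ : Measure Ω) (μ' : Measure Ω') (q a : ℝ) (I J : ℕ → Ω → ℕ)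
    (W : ℕ → ℕ → Ω → ℕ) (I' J' : ℕ → Ω' → ℕ) (W' : ℕ → ℕ → Ω' → ℕ) (h : Sys0 μ q a I J W)
    (h' : Sys0 μ' q a I' J' W') (m n u : ℕ) :
    μ.real (Hs I J W u m n) = μ'.real (Hs I' J' W' u m n) ∧
    variance (fun ω => (Gr I J W m n ω : ℝ)) μ =
      variance (fun ω => (Gr I' J' W' m n ω : ℝ)) μ' := by
  have hG := hMeas.1 m n
  have m1 : Measurable (fun z : (ℕ → ℕ) × (ℕ → ℕ) × (ℕ → ℕ → ℕ) × (Empty → ℕ) =>
      G z.1 z.2.1 z.2.2.1 m n) :=
    hG.comp (measurable_fst.prodMk ((measurable_fst.comp measurable_snd).prodMk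
      (measurable_fst.comp (measurable_snd.comp measurable_snd))))
  have m2 : Measurable (fun z : (ℕ → ℕ) × (ℕ → ℕ) × (ℕ → ℕ → ℕ) × (Empty → ℕ) =>
      G (bump z.1 u 1) z.2.1 z.2.2.1 m n) :=
    hG.comp (((bump_meas u).comp measurable_fst).prodMk
      ((measurable_fst.comp measurable_snd).prodMk
      (measurable_fst.comp (measurable_snd.comp measurable_snd))))
  have hr1 : Measurable (fun ω => Gr I J W m n ω) :=
    hMeas.2.1 I J W (fun i => h.meas (Sum.inl i)) (fun j => h.meas (Sum.inr (Sum.inl j)))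
      (fun i j => h.meas (Sum.inr (Sum.inr (Sum.inl (i, j))))) m n
  constructor
  · set S : Set ((ℕ → ℕ) × (ℕ → ℕ) × (ℕ → ℕ → ℕ) × (Empty → ℕ)) :=
      {z | G (bump z.1 u 1) z.2.1 z.2.2.1 m n = G z.1 z.2.1 z.2.2.1 m n + 1} with hS
    have hSm : MeasurableSet S := measurableSet_eq_fun m2 (m1.add_const 1)
    have hid := hLaw μ μ' q a I J W I' J' W' (fun _ : Empty => (0 : ℝ)) (fun _ _ => 0)
      (fun _ _ => 0) h h' (S.indicator fun _ => (1 : ℝ)) (measurable_const.indicator hSm)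
    have hset : MeasurableSet (Set.Ici (1 / 2 : ℝ)) := measurableSet_Ici
    have hms := hid.measure_mem_eq hset
    unfold Measure.real
    congr 1
    have k1 : (fun ω => (S.indicator fun _ => (1 : ℝ))
        ((fun i => I i ω), (fun j => J j ω), (fun i j => W i j ω), fun _ => 0)) ⁻¹'
        Set.Ici (1 / 2 : ℝ) = Hs I J W u m n := by
      ext ω
      simp only [Set.mem_preimage, Set.mem_Ici]
      constructor
      · intro h1
        by_contra hn
        rw [Set.indicator_of_notMem (by exact hn)] at h1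
        norm_num at h1
      · intro h1
        rw [Set.indicator_of_mem (by exact h1)]
        norm_num
    have k2 : (fun ω => (S.indicator fun _ => (1 : ℝ))
        ((fun i => I' i ω), (fun j => J' j ω), (fun i j => W' i j ω), fun _ => 0)) ⁻¹'
        Set.Ici (1 / 2 : ℝ) = Hs I' J' W' u m n := by
      ext ω
      simp only [Set.mem_preimage, Set.mem_Ici]
      constructor
      · intro h1
        by_contra hn
        rw [Set.indicator_of_notMem (by exact hn)] at h1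
        norm_num at h1
      · intro h1
        rw [Set.indicator_of_mem (by exact h1)]
        norm_num
    rw [k1, k2] at hms
    exact hms
  · have hid := hLaw μ μ' q a I J W I' J' W' (fun _ : Empty => (0 : ℝ)) (fun _ _ => 0)
      (fun _ _ => 0) h h' (fun z => (G z.1 z.2.1 z.2.2.1 m n : ℝ))
      ((measurable_from_nat (f := fun k : ℕ => (k : ℝ))).comp m1)
    exact hid.variance_eq

theorem cheb {Ω : Type} [MeasurableSpace Ω] {μ : Measure Ω} [IsProbabilityMeasure μ]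
    {Z : Ω → ℝ} (hZ : MemLp Z 2 μ) (S : Set Ω) (c : ℝ) (hc : 0 < c) (hm : ∫ ω, Z ω ∂μ ≤ -c)
    (hS : ∀ ω ∈ S, 0 ≤ Z ω) : μ.real S ≤ variance Z μ / c ^ 2 := by
  have h1 := meas_ge_le_variance_div_sq hZ hc
  have h2 : S ⊆ {ω | c ≤ |Z ω - ∫ ω, Z ω ∂μ|} := by
    intro ω hω
    have := hS ω hω
    have h3 := le_abs_self (Z ω - ∫ ω, Z ω ∂μ)
    show c ≤ |Z ω - ∫ ω, Z ω ∂μ|
    linarith
  have h3 : μ S ≤ ENNReal.ofReal (variance Z μ / c ^ 2) := (measure_mono h2).trans h1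
  exact ENNReal.toReal_le_of_le_ofReal (div_nonneg (variance_nonneg _ _) (by positivity)) h3

theorem ps_cast (I : ℕ → ℕ) (k : ℕ) : (ps I k : ℝ) = ∑ i : Fin k, (I i : ℝ) := by
  unfold ps
  push_cast
  rw [Finset.sum_range]

theorem pT1 (hVI : PVarId) (hVC : PVarCmp) (hCp : PCouple) (hLaw : ALaw) (hMom : PMom)
    (hIncl : DIncl) (hMeas : AMeas) : PT1 := by
  intro q hq hq1
  have ht2 : Real.sqrt q ^ 2 = q := Real.sq_sqrt hq.le
  have ht0 : 0 < Real.sqrt q := Real.sqrt_pos.2 hq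
  set t := Real.sqrt q with ht
  have ht1 : t < 1 := by nlinarith
  have hqt : q < t := by nlinarith
  have hd1 : dd q ≤ (t - q) / 4 := by
    unfold dd
    have := min_le_left (t - q) (1 - t)
    linarith
  have hd2 : dd q ≤ (1 - t) / 4 := by
    unfold dd
    have := min_le_right (t - q) (1 - t)
    linarith
  have hd0 : 0 < dd q := by
    unfold dd
    have : 0 < min (t - q) (1 - t) := lt_min (by linarith) (by linarith)
    linarith
  set d := dd q with hd
  obtain ⟨D, hD⟩ : ∃ D : ℝ, D = 1 - (t + 3 * d) := ⟨_, rfl⟩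
  obtain ⟨E, hE⟩ : ∃ E : ℝ, E = t - 2 * d - q := ⟨_, rfl⟩
  have hD0 : 0 < D := by linarith
  have hE0 : 0 < E := by linarith
  have hE1 : E ≤ 1 := by linarith
  obtain ⟨C', hC'⟩ : ∃ C' : ℝ, C' = 2 / (D ^ 2 * E ^ 2) := ⟨_, rfl⟩
  have hC'0 : 0 < C' := by rw [hC']; positivity
  obtain ⟨c0, hc0⟩ : ∃ c0 : ℝ, c0 = min (d / 2) (1 / (4 * C')) := ⟨_, rfl⟩
  have hc00 : 0 < c0 := by rw [hc0]; exact lt_min (by positivity) (by positivity)
  have hc0d : c0 ≤ d / 2 := by rw [hc0]; exact min_le_left _ _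
  have hc0C : C' * c0 ≤ 1 / 4 := by
    have h1 : c0 ≤ 1 / (4 * C') := by rw [hc0]; exact min_le_right _ _
    rw [le_div_iff₀ (by positivity)] at h1
    linarith
  obtain ⟨K, hK⟩ : ∃ K : ℝ, K = (2 / D ^ 4 + 1 / E ^ 4) * c0 + 2 / D ^ 2 := ⟨_, rfl⟩
  have hK0 : 0 ≤ K := by rw [hK]; positivity
  obtain ⟨C, hC⟩ : ∃ C : ℝ, C = 1 + 8 * C' + 16 * (2 + K) / c0 ^ 2 := ⟨_, rfl⟩
  have hCa : 0 ≤ 16 * (2 + K) / c0 ^ 2 := by positivity
  refine ⟨C, by linarith, ?_⟩
  intro Ω _ μ a I J W haq hS m n u hn hnm hmn hu hCu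
  obtain ⟨ha1, ha2⟩ := abs_le.1 haq
  have haE : q + E ≤ a := by linarith
  have ha0 : 0 < a := by linarith
  have hN1 : (1 : ℝ) ≤ n := by exact_mod_cast hn
  have hN0 : (0 : ℝ) < n := by linarith
  have hMN : (m : ℝ) ≤ 2 * n := by exact_mod_cast hmn
  have hsM : (u : ℝ) + 1 ≤ m := by exact_mod_cast hu
  have hs1 : 1 ≤ (u : ℝ) + 1 := by
    have : (0 : ℝ) ≤ u := Nat.cast_nonneg _
    linarith
  obtain ⟨s, hs⟩ : ∃ s : ℝ, s = (u : ℝ) + 1 := ⟨_, rfl⟩
  rw [← hs] at hsM hs1 hCu ⊢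
  have hs0 : 0 < s := by linarith
  obtain ⟨l, hl⟩ : ∃ l : ℝ, l = a + c0 * s / n := ⟨_, rfl⟩
  have hδ : l - a = c0 * s / n := by rw [hl]; ring
  have hδ0 : 0 < l - a := by rw [hδ]; positivity
  have hδN : n * (l - a) = c0 * s := by rw [hδ]; field_simp
  have hδd : l - a ≤ d := by
    rw [hδ, div_le_iff₀ hN0]
    have h5 := mul_le_mul hc0d (hsM.trans hMN) hs0.le (by linarith : (0 : ℝ) ≤ d / 2)
    linarith
  have hlD : l ≤ 1 - D := by linarith
  have haD : a ≤ 1 - D := by linarith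
  obtain ⟨Ω', _, μ', I0, J0, I1, J1, W0, h0, h1, hmono⟩ :=
    hCp q a l hq (by linarith) (by linarith) (by linarith)
  obtain ⟨tr1, tr2⟩ := transfer hLaw hMeas μ μ' q a I J W I0 J0 W0 hS h0 m n u
  rw [tr1, tr2]
  haveI : IsProbabilityMeasure μ' := h0.prob
  obtain ⟨g0, eg0, -, -⟩ := hVI μ' q a I0 J0 W0 hq (by linarith) (by linarith) h0 m n
  obtain ⟨g1, eg1, -, -⟩ := hVI μ' q l I1 J1 W0 hq (by linarith) (by linarith) h1 m n
  have vc := hVC μ' μ' q a l I0 J0 W0 I1 J1 W0 hq (by linarith) (by linarith) (by linarith)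
    (by linarith) h0 h1 m n
  obtain ⟨_, _, hm⟩ := hMom (1 - D) (by linarith)
  obtain ⟨p0, ep0, vp0, -⟩ := hm μ' a (u + 1) (fun i : Fin (u + 1) => I0 i) haD
    (geo_bd h0 (u + 1))
  obtain ⟨p1, ep1, vp1, -⟩ := hm μ' l (u + 1) (fun i : Fin (u + 1) => I1 i) hlD
    (geo_bd h1 (u + 1))
  have h42 : (2 : ENNReal) ≤ 4 := by norm_num
  have g0' := g0.mono_exponent h42
  have g1' := g1.mono_exponent h42
  have p0' := p0.mono_exponent h42
  have p1' := p1.mono_exponent h42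
  have hZ : MemLp (fun ω => ((Gr I1 J1 W0 m n ω : ℝ) - (Gr I0 J0 W0 m n ω : ℝ)) -
      (∑ i : Fin (u + 1), (I1 i ω : ℝ) - ∑ i : Fin (u + 1), (I0 i ω : ℝ))) 2 μ' :=
    (g1'.sub g0').sub (p1'.sub p0')
  have hcast : ((u + 1 : ℕ) : ℝ) = s := by rw [hs]; push_cast; ring
  rw [hcast] at ep0 ep1 vp0 vp1
  have hmean : ∫ ω, (((Gr I1 J1 W0 m n ω : ℝ) - (Gr I0 J0 W0 m n ω : ℝ)) -
      (∑ i : Fin (u + 1), (I1 i ω : ℝ) - ∑ i : Fin (u + 1), (I0 i ω : ℝ))) ∂μ' =
      (m * (mean l - mean a) + n * (mean (q / l) - mean (q / a))) -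
        s * (mean l - mean a) := by
    have i1 := g1'.integrable (by norm_num)
    have i0 := g0'.integrable (by norm_num)
    have j1 := p1'.integrable (by norm_num)
    have j0 := p0'.integrable (by norm_num)
    have e := integral_sub (f := fun ω => (Gr I1 J1 W0 m n ω : ℝ) - (Gr I0 J0 W0 m n ω : ℝ))
      (g := fun ω => ∑ i : Fin (u + 1), (I1 i ω : ℝ) - ∑ i : Fin (u + 1), (I0 i ω : ℝ))
      (i1.sub i0) (j1.sub j0)
    rw [e, integral_sub i1 i0, integral_sub j1 j0, eg0, eg1, ep0, ep1]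
    ring
  have hbr := bracket q t a l D E m n ht2 ht0 hq hq1 ht1 ha0 (by linarith) hD0 hE0 hE1 hlD haE
    hN0.le
  rw [← hC'] at hbr
  have hX : 0 ≤ |(m : ℝ) - n| + n * |a - t| := by positivity
  have h8 : 8 * C' * (|(m : ℝ) - n| + n * |a - t|) ≤ s := by
    refine le_trans ?_ hCu
    gcongr
    linarith
  have hbr2 : C' * (|(m : ℝ) - n| + n * |a - t| + n * (l - a)) ≤ 3 / 8 * s := by
    rw [hδN]
    have h5 := mul_le_mul_of_nonneg_right hc0C hs0.le
    linarith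
  have hms : s * (l - a) ≤ s * (mean l - mean a) := by
    rw [mean_sub a l (by linarith) (by linarith)]
    refine mul_le_mul_of_nonneg_left ?_ hs0.le
    rw [le_div_iff₀ (mul_pos (by linarith) (by linarith))]
    have e1 : 0 < 1 - l := by linarith
    have e2 : 0 < 1 - a := by linarith
    have h5 : (1 - l) * (1 - a) ≤ 1 :=
      mul_le_one₀ (by linarith) e2.le (by linarith)
    exact mul_le_of_le_one_right hδ0.le h5
  have hmean2 : ∫ ω, (((Gr I1 J1 W0 m n ω : ℝ) - (Gr I0 J0 W0 m n ω : ℝ)) -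
      (∑ i : Fin (u + 1), (I1 i ω : ℝ) - ∑ i : Fin (u + 1), (I0 i ω : ℝ))) ∂μ' ≤
      -((l - a) * s / 2) := by
    rw [hmean]
    have h5 := mul_le_mul_of_nonneg_left hbr2 hδ0.le
    have h6 : 0 ≤ (l - a) * s := by positivity
    linarith
  have hch := cheb hZ (Hs I0 J0 W0 u m n) ((l - a) * s / 2) (by positivity) hmean2 (by
    intro ω hω
    have hi := hIncl (fun i => I0 i ω) (fun i => I1 i ω) (fun j => J0 j ω) (fun j => J1 j ω)
      (fun i j => W0 i j ω) u m n (fun i => (hmono i ω).1) (fun j => (hmono j ω).2) hω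
    have hps : ps (fun i => I0 i ω) (u + 1) ≤ ps (fun i => I1 i ω) (u + 1) :=
      Finset.sum_le_sum fun i _ => (hmono i ω).1
    have hi2 : (Gr I0 J0 W0 m n ω : ℝ) + ((ps (fun i => I1 i ω) (u + 1) : ℝ) -
        (ps (fun i => I0 i ω) (u + 1) : ℝ)) ≤ Gr I1 J1 W0 m n ω := by
      rw [← Nat.cast_sub hps]
      exact_mod_cast hi
    rw [ps_cast, ps_cast] at hi2
    linarith)
  have hvar := var_four g1' g0' p1' p0'
  have hv1 : variance (fun ω => (Gr I1 J1 W0 m n ω : ℝ)) μ' ≤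
      variance (fun ω => (Gr I0 J0 W0 m n ω : ℝ)) μ' + (2 / D ^ 4 + 1 / E ^ 4) * (c0 * s) := by
    refine vc.trans ?_
    have e1 := var1 a l D ha0 (by linarith) hD0 hlD
    have e2 := var2 q a l E hq (by linarith) (by linarith) hE0 haE
    have e3 : (m : ℝ) * |vari l - vari a| ≤ (2 * n) * ((l - a) / D ^ 4) :=
      mul_le_mul hMN e1 (abs_nonneg _) (by positivity)
    have e4 : (n : ℝ) * |vari (q / l) - vari (q / a)| ≤ n * ((l - a) / E ^ 4) :=
      mul_le_mul_of_nonneg_left e2 hN0.le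
    have e5 : (2 * (n : ℝ)) * ((l - a) / D ^ 4) + n * ((l - a) / E ^ 4) =
        (2 / D ^ 4 + 1 / E ^ 4) * (n * (l - a)) := by ring
    rw [hδN] at e5
    linarith
  have hv2 : variance (fun ω => ∑ i : Fin (u + 1), (I1 i ω : ℝ)) μ' ≤ s * (1 / D ^ 2) := by
    rw [vp1]
    exact mul_le_mul_of_nonneg_left (vari_bd l D (by linarith) hD0 hlD) hs0.le
  have hv3 : variance (fun ω => ∑ i : Fin (u + 1), (I0 i ω : ℝ)) μ' ≤ s * (1 / D ^ 2) := by
    rw [vp0]
    exact mul_le_mul_of_nonneg_left (vari_bd a D ha0 hD0 haD) hs0.le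
  set V := variance (fun ω => (Gr I0 J0 W0 m n ω : ℝ)) μ' with hV
  have hV0 : 0 ≤ V := variance_nonneg _ _
  have hvar2 : variance (fun ω => ((Gr I1 J1 W0 m n ω : ℝ) - (Gr I0 J0 W0 m n ω : ℝ)) -
      (∑ i : Fin (u + 1), (I1 i ω : ℝ) - ∑ i : Fin (u + 1), (I0 i ω : ℝ))) μ' ≤
      4 * (2 * V + K * s) := by
    refine hvar.trans ?_
    have : K * s = (2 / D ^ 4 + 1 / E ^ 4) * (c0 * s) + s * (1 / D ^ 2) + s * (1 / D ^ 2) := by
      rw [hK]; ring
    rw [this]
    linarith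
  refine hch.trans ?_
  have hstep : variance (fun ω => ((Gr I1 J1 W0 m n ω : ℝ) - (Gr I0 J0 W0 m n ω : ℝ)) -
      (∑ i : Fin (u + 1), (I1 i ω : ℝ) - ∑ i : Fin (u + 1), (I0 i ω : ℝ))) μ' /
      ((l - a) * s / 2) ^ 2 ≤ 4 * (2 * V + K * s) / ((l - a) * s / 2) ^ 2 := by
    gcongr
  refine hstep.trans ?_
  have hform : 4 * (2 * V + K * s) / ((l - a) * s / 2) ^ 2 =
      (16 * (2 * V + K * s) / c0 ^ 2) * (n : ℝ) ^ 2 / s ^ 4 := by
    rw [hδ]
    field_simp
    ring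
  rw [hform]
  have hfin : 16 * (2 * V + K * s) / c0 ^ 2 ≤ C * (V + s) := by
    have e1 : 16 * (2 * V + K * s) / c0 ^ 2 ≤ 16 * (2 + K) / c0 ^ 2 * (V + s) := by
      rw [div_mul_eq_mul_div]
      have h5 : 0 ≤ K * V := mul_nonneg hK0 hV0
      have h6 : 16 * (2 * V + K * s) ≤ 16 * (2 + K) * (V + s) := by linarith
      exact div_le_div_of_nonneg_right h6 (by positivity)
    refine e1.trans ?_
    exact mul_le_mul_of_nonneg_right (by linarith) (by linarith)
  calc (16 * (2 * V + K * s) / c0 ^ 2) * (n : ℝ) ^ 2 / s ^ 4 ≤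
      (C * (V + s)) * (n : ℝ) ^ 2 / s ^ 4 := by gcongr
    _ = _ := by ring

end Pool.Agent.W925.LP
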